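import Pool.Agent.helper45.TC.Spec

/-!
# Project tc3 (MP_405bd9_al), row LOW: the value of `Low`
-/

set_option autoImplicit false

open Polynomial Finset Pool.Agent.helper27.PC

namespace Pool.Agent.TC

theorem LOW_cal (e1 e2 e3 e4 e5 f1 f2 f3 f4 f5 A B C' E : ℕ) (h1 : e1 + e2 + e5 = A)
    (h2 : e3 + e4 + e5 = B) (h3 : f1 + f2 + f5 = C') (h4 : f3 + f4 + f5 = E) :
    ((X : ℤ[X]) ^ e1 * X ^ e2 - X ^ e3 * X ^ e4) * X ^ e5 - (X ^ f1 * X ^ f2 - X ^ f3 * X ^ f4) * X ^ f5 =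
      X ^ A - X ^ B - X ^ C' + X ^ E := by
  subst h1 h2 h3 h4
  ring

theorem LOW_move_inj {t : ℕ} {V : St} {l l' : Lab} (hl : l ∈ addable t V) (hl' : l' ∈ addable t V)
    (h : move t V l = move t V l') : l = l' := by
  have h1 : up t l ∈ move t V l' := by
    rw [← h, mem_mv]
    exact Or.inl rfl
  rcases mem_mv.1 h1 with h2 | h2
  · unfold up at h2
    obtain ⟨c, x⟩ := l
    obtain ⟨c', x'⟩ := l'
    simp only [Prod.mk.injEq] at h2 ⊢
    exact ⟨h2.1, by omega⟩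
  · exact absurd h2.2 (mem_ad.1 hl).2

theorem LOW_val (w : Lab → ℤ[X]) (t : ℕ) (V : St) (l : Lab) (hl : l ∈ addable t V) :
    Rib w t (Finsupp.single V 1) (move t V l) = (-1) ^ cnt V l t * w l := by
  rw [SD_Rib_single, Finsupp.finsetSum_apply, Finset.sum_eq_single l]
  · rw [Finsupp.smul_apply, Finsupp.single_eq_same, smul_eq_mul, mul_one]
  · intro l' hl' hne
    rw [Finsupp.smul_apply, Finsupp.single_eq_of_ne, smul_zero]
    intro h
    exact hne (LOW_move_inj hl' hl h.symm)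
  · intro h
    exact absurd hl h

theorem LOW (hLB : LB_stmt) (hLG : LG_stmt) (hLOV : LOV_stmt) (hRIV : RIV_stmt) : LOW_stmt := by
  intro s a b hs hsa hab hbs c j hj
  obtain ⟨d, rfl⟩ := Nat.exists_eq_add_of_lt hab
  obtain ⟨t, rfl⟩ : ∃ t, s = d + 1 + t := ⟨s - (d + 1), by omega⟩
  set n := d + 1 + t + a + (a + d + 1) with hn
  set v0 : St →₀ ℤ[X] := Finsupp.single (vac n) 1 with hv0
  have g0 : GV n 0 v0 := by
    intro S hS
    have h1 : S = vac n := by
      have h2 := Finsupp.support_single_subset hS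
      exact Finset.mem_singleton.1 h2
    rw [h1]
    exact SD_good_vac n
  set w0 := wT true n 0 (d + 1 + t) with hw0
  set w1 := wT true n (d + 1 + t) a with hw1
  have g1 := (hLG ℤ[X] w0 n 0 (d + 1 + t) v0 (by omega) g0).1
  rw [zero_add] at g1
  have k1 := (hLB ℤ[X] wl w1 n (d + 1 + t) (a + d + 1) a (Rib w0 (d + 1 + t) v0) (by omega) (by omega) g1
    (by omega)).2.2 (by omega)
  have k2 : Low wl (a + d + 1) (Rib w0 (d + 1 + t) v0) = 0 :=
    (hLG ℤ[X] wl n (d + 1 + t) (a + d + 1) _ (by omega) g1).2.2 (by omega)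
  have ed : a + d + 1 - a = d + 1 := by omega
  rw [k2, map_zero, sub_zero, ed] at k1
  set W1 : Lab → ℤ[X] := fun l => wl l * w1 (up (d + 1) l) - wl (dn a l) * w1 (dn a l) with hW1
  have k3 := (hLB ℤ[X] W1 w0 n 0 (d + 1) (d + 1 + t) v0 (by omega) (by omega) g0 (by omega)).1 (by omega)
  have k4 : Low W1 (d + 1) v0 = 0 := (hLG ℤ[X] W1 n 0 (d + 1) _ (by omega) g0).2.2 (by omega)
  have et : d + 1 + t - (d + 1) = t := by omega
  rw [k4, map_zero, sub_zero, et] at k3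
  have et2 : a + (d + 1 + t) - (a + d + 1) = t := by omega
  have hy : Low wl (a + d + 1) (yv (d + 1 + t) a (a + d + 1)) =
      Rib (fun l => W1 (up t l) * w0 l - W1 (dn (d + 1) l) * w0 (dn (d + 1) l)) t v0 := by
    rw [yv_eq, k1, k3]
  rw [et2] at hj ⊢
  have hadd : ((c, 2 * (a + d + 1) + j) : Lab) ∈ addable t (vac n) := by
    rw [mem_ad, mem_vac', mem_vac']
    unfold up
    simp only
    omega
  rw [hy, LOW_val _ _ _ _ hadd]
  have hpm : ∃ ε : ℤ, (ε = 1 ∨ ε = -1) ∧ ((-1 : ℤ[X]) ^ cnt (vac n) (c, 2 * (a + d + 1) + j) t) = C ε := by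
    rcases neg_one_pow_eq_or ℤ[X] (cnt (vac n) (c, 2 * (a + d + 1) + j) t) with h | h
    · exact ⟨1, Or.inl rfl, by rw [h]; simp⟩
    · exact ⟨-1, Or.inr rfl, by rw [h]; simp⟩
  obtain ⟨ε, hε, he⟩ := hpm
  rw [he]
  cases c
  · refine ⟨-ε, by rcases hε with h | h <;> rw [h] <;> simp, ?_⟩
    have hw : (W1 (up t (false, 2 * (a + d + 1) + j)) * w0 (false, 2 * (a + d + 1) + j) -
        W1 (dn (d + 1) (false, 2 * (a + d + 1) + j)) * w0 (dn (d + 1) (false, 2 * (a + d + 1) + j))) =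
        -(X ^ (3 * (a + d + 1) + 2 * (d + 1 + t) + 3 * (j + ix false)) -
          X ^ (2 * (a + d + 1) + 2 * (d + 1 + t) - a + 3 * (j + ix false)) -
          X ^ (2 * (a + d + 1) + a + 3 * (j + ix false)) + X ^ (a + d + 1 + 3 * (j + ix false))) := by
      simp only [hW1, hw0, hw1, up, dn, wl, wT, wq, ix, if_true, Bool.false_eq_true, if_false]
      rw [← LOW_cal (2 * (a + d + 1) + j + t) (d + 1 + t + a + (2 * (a + d + 1) + j + t + (d + 1)) - n)
        (2 * (a + d + 1) + j + t - a) (d + 1 + t + a + (2 * (a + d + 1) + j + t - a) - n)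
        (0 + (d + 1 + t) + (2 * (a + d + 1) + j) - n)
        (2 * (a + d + 1) + j - (d + 1)) (d + 1 + t + a + (2 * (a + d + 1) + j - (d + 1) + (d + 1)) - n)
        (2 * (a + d + 1) + j - (d + 1) - a) (d + 1 + t + a + (2 * (a + d + 1) + j - (d + 1) - a) - n)
        (0 + (d + 1 + t) + (2 * (a + d + 1) + j - (d + 1)) - n) _ _ _ _
        (by omega) (by omega) (by omega) (by omega)]
      ring
    rw [hw, C_neg]
    ring
  · refine ⟨ε, hε, ?_⟩
    have hw : (W1 (up t (true, 2 * (a + d + 1) + j)) * w0 (true, 2 * (a + d + 1) + j) -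
        W1 (dn (d + 1) (true, 2 * (a + d + 1) + j)) * w0 (dn (d + 1) (true, 2 * (a + d + 1) + j))) =
        (X ^ (3 * (a + d + 1) + 2 * (d + 1 + t) + 3 * (j + ix true)) -
          X ^ (2 * (a + d + 1) + 2 * (d + 1 + t) - a + 3 * (j + ix true)) -
          X ^ (2 * (a + d + 1) + a + 3 * (j + ix true)) + X ^ (a + d + 1 + 3 * (j + ix true))) := by
      simp only [hW1, hw0, hw1, up, dn, wl, wT, wq, ix, if_true]
      rw [← LOW_cal (2 * (a + d + 1) + j + t + 1) (d + 1 + t + a + (2 * (a + d + 1) + j + t + (d + 1)) + 1 - n)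
        (2 * (a + d + 1) + j + t - a + 1) (d + 1 + t + a + (2 * (a + d + 1) + j + t - a) + 1 - n)
        (0 + (d + 1 + t) + (2 * (a + d + 1) + j) + 1 - n)
        (2 * (a + d + 1) + j - (d + 1) + 1) (d + 1 + t + a + (2 * (a + d + 1) + j - (d + 1) + (d + 1)) + 1 - n)
        (2 * (a + d + 1) + j - (d + 1) - a + 1) (d + 1 + t + a + (2 * (a + d + 1) + j - (d + 1) - a) + 1 - n)
        (0 + (d + 1 + t) + (2 * (a + d + 1) + j - (d + 1)) + 1 - n) _ _ _ _
        (by omega) (by omega) (by omega) (by omega)]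
    rw [hw]

end Pool.Agent.TC
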